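import Pool.Agent.Run7.h246.MC.Sub

set_option autoImplicit false

/-!
# Record prime gaps in all sets of residue vectors which are stable under a large group of scalars

Write `f(x) = log x (log₂ x)² log₄ x / (log₃ x)²` for the record size of prime-free intervals.  An integer `z`
is a centre modulo `p` if every integer within `κ f(p)` of `z` has a prime factor at most `p ^ δ`; so a centre
`z > p ^ δ + κ f(p)` is in the middle of a record prime-free interval.

Let `H` be a group of nonzero residues modulo a large prime `p`, with at least `p ^ (1/2 + ε) / 2` elements, and let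
`w_1, …, w_n` be nonzero integers of size at most `p ^ (δ/4)`.  Let `S` be ANY set of at least `p ^ (n - 1 + ε)`
vectors modulo `p` such that `(x_1, …, x_n) ∈ S` and `t ∈ H` imply `(t ^ w_1 x_1, …, t ^ w_n x_n) ∈ S`.  Every box
`∏ (M_j, M_j + L_j]` with `p ^ δ ≤ L_j ≤ p` of volume at least `p ^ (n - ε + δ)` contains for at least
`p ^ (-δ) |S| ∏ (L_j / p)` members of `S` a representative all of whose coordinates are centres.  For smaller sets `S`
it is enough that, for every `α ≠ 0`, at most `|S| p ^ (-ε)` members of `S` satisfy all the equations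
`∑_{w_j = d} α_j x_j = 0`.

Examples, with `H` the group of all nonzero residues and `ε = 1/2`.  (a) `w_j = j`: the substitution
`f(X) ↦ t ^ n f(X / t)` multiplies the roots of `X ^ n + x_1 X ^ (n - 1) + … + x_n` by `t`.  So there are record gaps
at all the coefficients of polynomials of every degree `n ≥ 2` which are irreducible modulo `p`, or which have any
other given type of factorisation into distinct irreducible factors modulo `p`.  (b) `w = (4, 6)`: every elliptic curve over the field of `p` elements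
with `j ≠ 0, 1728` has an equation `y² = x³ + a x + b` with centres `a`, `b` in any box of area `p ^ (3/2 + δ)` (here
`S` is the orbit of one pair).

The sums over `H` are bounded by Weil's theorem for Laurent polynomials of degree up to `p ^ (1/2 + δ)`.
-/

namespace Pool.Agent.Results.MP_c853c5_nt.SetsStableUnderScalars

open Finset

/-- The record scale `f(x) = log x (log₂ x)² log₄ x / (log₃ x)²` (iterated natural logarithms). -/
noncomputable def f (x : ℝ) : ℝ :=
  Real.log x * (Real.log (Real.log x)) ^ 2 * Real.log (Real.log (Real.log (Real.log x))) /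
    (Real.log (Real.log (Real.log x))) ^ 2

/-- Every integer within `κ f(p)` of `z` has a prime factor at most `p ^ δ`. -/
def Centre (κ δ : ℝ) (p : ℕ) (z : ℤ) : Prop :=
  ∀ m : ℤ, |(m : ℝ) - z| ≤ κ * f p → ∃ l : ℕ, l.Prime ∧ (l : ℝ) ≤ (p : ℝ) ^ δ ∧ (l : ℤ) ∣ m

/-- The set `S` is stable under `x ↦ (t ^ (w j) x j)_j` for all `t` in `H`. -/
def Stable {n p : ℕ} (H : Subgroup (ZMod p)ˣ) (w : Fin n → ℤ) (S : Finset (Fin n → ZMod p)) :
    Prop :=
  ∀ t ∈ H, ∀ x ∈ S, (fun j => ((t ^ w j : (ZMod p)ˣ) : ZMod p) * x j) ∈ S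

open scoped Classical in
/-- **Record prime gaps in all sets of residue vectors which are stable under a large group of scalars.** -/
theorem result (n : ℕ) (hn : 1 ≤ n) (ε δ : ℝ) (hε : 0 ≤ ε) (hδ : 0 < δ) (hδ1 : δ ≤ 1) :
    ∃ κ : ℝ, 0 < κ ∧ ∃ p₀ : ℕ, ∀ p : ℕ, p₀ ≤ p → p.Prime →
      ∀ H : Subgroup (ZMod p)ˣ, (p : ℝ) ^ (1 / 2 + ε) ≤ 2 * Nat.card H →
      ∀ w : Fin n → ℤ, (∀ j, w j ≠ 0 ∧ |(w j : ℝ)| ≤ (p : ℝ) ^ (δ / 4)) →
      ∀ S : Finset (Fin n → ZMod p), S.Nonempty → Stable H w S →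
      ((p : ℝ) ^ ((n : ℝ) - 1 + ε) ≤ S.card ∨ ∀ α : Fin n → ZMod p, α ≠ 0 →
        ((S.filter fun x => ∀ d : ℤ, ∑ j with w j = d, α j * x j = 0).card : ℝ) ≤
          S.card * (p : ℝ) ^ (-ε)) →
      ∀ (M : Fin n → ℤ) (L : Fin n → ℕ), (∀ j, (p : ℝ) ^ δ ≤ L j ∧ L j ≤ p) →
        (p : ℝ) ^ ((n : ℝ) - ε + δ) ≤ ∏ j, (L j : ℝ) →
      (p : ℝ) ^ (-δ) * (S.card * ∏ j, ((L j : ℝ) / p)) ≤
        ((S.filter fun x => ∀ j, ∃ z : ℤ, M j < z ∧ z ≤ M j + L j ∧ (z : ZMod p) = x j ∧
          Centre κ δ p z).card : ℝ) := by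
  obtain ⟨κ, hκ, p₀, h⟩ := Pool.Agent.Run7.h246.MC.sub_main n hn ε δ hε hδ hδ1
  exact ⟨κ, hκ, p₀, fun p hpp hp H hH w hw S hS hst hcon M L hL hvol =>
    h p hp hpp H hH w hw S hS hst hcon M L hL hvol⟩

end Pool.Agent.Results.MP_c853c5_nt.SetsStableUnderScalars
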